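import Mathlib
import Pool.Agent.H.MP_8a6a08_lc.Univ
import Pool.Agent.H.MP_8a6a08_lc.Tape

set_option autoImplicit false

namespace Pool.Agent.Results.MP_8a6a08_lc.Counter

open Function Set

/-- A one-dimensional cellular automaton. -/
structure CA where
  S : Type
  fin : Finite S
  ν : S
  m : ℕ
  nb : Fin m → ℤ
  f : (Fin m → S) → S
  quiet : f (fun _ => ν) = ν

namespace CA
variable (A : CA)

def G (c : ℤ → A.S) (x : ℤ) : A.S := A.f fun i => c (x + A.nb i)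

def Supp (c : ℤ → A.S) : Set ℤ := {x | c x ≠ A.ν}

def Disj (c d : ℤ → A.S) : Prop := Disjoint (A.Supp c) (A.Supp d)

open Classical in
/-- `c ⊔ d`. -/
noncomputable def un (c d : ℤ → A.S) (x : ℤ) : A.S := if c x = A.ν then d x else c x

def CPassive (c : ℤ → A.S) : Prop := ∀ d, (∀ x ∈ A.Supp d, c x = d x) → A.G d = d

def Passes (c d : ℤ → A.S) : Prop :=
  ∃ t, ∃ x ∈ A.Supp (A.G^[t] d), A.G^[t] (A.un c d) x ≠ A.G^[t] d x

def tr (d : ℤ → A.S) (τ : ℤ) (x : ℤ) : A.S := d (x - τ)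

open Classical in
noncomputable def res (c : ℤ → A.S) (U : Set ℤ) (x : ℤ) : A.S := if x ∈ U then c x else A.ν

structure Domain (T : Set (ℤ → A.S)) (ι : ℕ → ℤ → A.S) : Prop where
  fin : ∀ f ∈ T, (A.Supp f).Finite
  mem : ∀ n, ι n ∈ T
  inj : Injective ι
  comp : ∃ (e : A.S → ℕ) (l : ℕ → List (ℤ × ℕ)), Injective e ∧ Computable l ∧
    ∀ n x k, (x, k) ∈ l n ↔ x ∈ A.Supp (ι n) ∧ e (ι n x) = k
  pas : ∀ f ∈ T, A.CPassive f
  pasU : ∀ l : List ((ℤ → A.S) × ℤ), (∀ p ∈ l, p.1 ∈ T) →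
    (l.map fun p => A.tr p.1 p.2).Pairwise A.Disj →
    A.CPassive ((l.map fun p => A.tr p.1 p.2).foldr A.un fun _ => A.ν)

def U (T : Set (ℤ → A.S)) : Set ℤ := ⋃ f ∈ T, A.Supp f

def Computes (T : Set (ℤ → A.S)) (ι : ℕ → ℤ → A.S) (c : ℤ → A.S) (ψ : ℕ →. ℕ) : Prop :=
  c ∉ T ∧ ∃ α ∈ A.Supp c, ∃ h ≠ A.ν, ∀ n, ∀ m ∈ ψ n, A.Disj c (ι n) ∧
    ∃ t, A.G^[t] (A.un c (ι n)) α = h ∧ (∀ s < t, A.G^[s] (A.un c (ι n)) α ≠ h) ∧
      ¬ A.Passes (A.res (A.G^[t] (A.un c (ι n))) (A.U T)ᶜ) (A.res (A.G^[t] (A.un c (ι n))) (A.U T)) ∧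
      A.res (A.G^[t] (A.un c (ι n))) (A.U T) = ι m

def Universal (T : Set (ℤ → A.S)) (ι : ℕ → ℤ → A.S) (c : ℤ → A.S) : Prop :=
  c ∉ T ∧ ∀ ψ : ℕ →. ℕ, Nat.Partrec ψ → ∃ d ∈ T, ∃ τ, A.Disj (A.tr d τ) c ∧ A.tr d τ ∉ T ∧
    A.Computes T ι (A.un c (A.tr d τ)) ψ

theorem un_res (c : ℤ → A.S) (U : Set ℤ) : A.un (A.res c Uᶜ) (A.res c U) = c := by
  funext x
  by_cases h : x ∈ U <;> simp +contextual [un, res, h]

end CA

open Pool.Agent.H.MP_8a6a08_lc Pool.Agent.Lib.helper21.While Pool.Agent.Lib.helper21.Mach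

noncomputable abbrev ca (P : Prog) : CA where
  S := Cell (KK P) (Q P × Mode)
  fin := inferInstance
  ν := (.nu, none)
  m := 3
  nb := ![-1, 0, 1]
  f v := rule dl (v 0) (v 1) (v 2)
  quiet := congrFun (G_pas dl (fun _ => (.nu, none)) fun _ => ⟨rfl, rfl⟩) 0

variable {P : Prog}

theorem Geq : (ca P).G = G dl := by
  funext c x
  simp [CA.G, G, sub_eq_add_neg]

def io (P : Prog) (n : ℕ) (v : ℤ) : (ca P).S := (if 0 ≤ v then inp (n + 1) v.toNat else .nu, none)

theorem io_pas (n : ℕ) (v : ℤ) : pas (io P n v) :=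
  ⟨rfl, by unfold io; split_ifs; exacts [inp_pas .., rfl]⟩

theorem io_supp (n : ℕ) (v : ℤ) : v ∈ (ca P).Supp (io P n) ↔ 0 ≤ v ∧ v ≤ n := by
  simp only [CA.Supp, io, inp, mem_setOf_eq]
  split_ifs <;> simp <;> omega

theorem Ueq : (ca P).U (range (io P)) = Ici 0 := by
  ext v
  simp only [CA.U, mem_iUnion, mem_range, exists_prop, exists_exists_eq_and, io_supp, mem_Ici]
  exact ⟨fun ⟨_, h, _⟩ => h, fun h => ⟨v.toNat, h, by omega⟩⟩

theorem cp {c : ℤ → (ca P).S} (h : ∀ v, pas (c v)) : (ca P).CPassive c := fun d g => by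
  rw [Geq]
  refine G_pas _ _ fun v => ?_
  by_cases l : d v = (ca P).ν
  · exact l ▸ ⟨rfl, rfl⟩
  · exact g v l ▸ h v

/-- From some time on the configuration contains `io m`. -/
def Out (c : ℤ → (ca P).S) (m : ℕ) : Prop :=
  ∃ t, ∀ s ≥ t, ∀ v : ℤ, 0 ≤ v → v ≤ m → (G dl)^[s] c v = io P m v

theorem Out.uniq {c : ℤ → (ca P).S} {m n : ℕ} (h : Out c m) (g : Out c n) : m = n := by
  wlog l : m < n generalizing m n
  · exact (Nat.eq_or_lt_of_le (not_lt.1 l)).elim Eq.symm fun l => (this g h l).symm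
  obtain ⟨t, h⟩ := h
  obtain ⟨s, g⟩ := g
  have := (h _ (le_max_left t s) m (by omega) le_rfl).symm.trans
    (g _ (le_max_right t s) m (by omega) (by omega))
  simp [io, inp, l] at this

theorem dom : (ca P).Domain (range (io P)) (io P) where
  fin := by
    rintro _ ⟨n, rfl⟩
    exact (finite_Icc (0 : ℤ) n).subset fun v h => (io_supp n v).1 h
  mem n := ⟨n, rfl⟩
  inj m n h := Out.uniq (c := io P n) ⟨0, fun s _ v _ _ => by
    rw [iterate_fixed (G_pas _ _ (io_pas n)), h]⟩ ⟨0, fun s _ v _ _ => by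
    rw [iterate_fixed (G_pas _ _ (io_pas n))]⟩
  comp := by
    obtain ⟨e, he⟩ := exists_injective_nat (ca P).S
    refine ⟨e, fun n => (List.range (n + 1)).map fun i => (Int.ofNat i,
      if i = n then e (.b, none) else e (.a, none)), he, (Primrec.list_map
      (Primrec.list_range.comp .succ) (Primrec₂.pair.comp₂ (Primrec.comp₂ ?_ .right)
      (Primrec.ite (Primrec.eq.comp .snd .fst) (.const _) (.const _)).to₂)).to_comp, fun n x k => ?_⟩
    · exact (Primrec.of_equiv_symm (e := Equiv.intEquivNat)).comp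
        (Primrec.nat_mul.comp (.const 2) .id) |>.of_eq fun i => by
          apply Equiv.intEquivNat.injective
          simp [Equiv.intEquivNat, Equiv.intEquivNatSumNat, Equiv.natSumNatEquivNat_apply]
    · simp only [List.mem_map, List.mem_range, Prod.mk.injEq, io_supp, io, inp]
      refine ⟨?_, fun ⟨⟨h1, h2⟩, h3⟩ => ⟨x.toNat, by omega, by simp [h1], ?_⟩⟩
      · rintro ⟨i, h, rfl, rfl⟩
        simp only [Int.ofNat_eq_natCast, Nat.cast_nonneg, Int.toNat_natCast, if_true]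
        exact ⟨⟨trivial, by omega⟩, by split_ifs <;> omega⟩
      · rw [← h3]
        split_ifs <;> omega
  pas := by
    rintro _ ⟨n, rfl⟩
    exact cp (io_pas n)
  pasU l h _ := cp fun v => by
    induction l with
    | nil => exact ⟨rfl, rfl⟩
    | cons p l ih =>
      rw [List.map_cons, List.foldr_cons, CA.un]
      split_ifs
      · exact ih (fun q hq => h q (by simp [hq])) (by simp_all)
      · obtain ⟨n, e⟩ := h p (by simp)
        exact e ▸ io_pas ..

theorem un_pas {c d : ℤ → (ca P).S} {v : ℤ} (h : pas (c v)) (g : pas (d v)) :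
    pas ((ca P).un c d v) := by
  rw [CA.un]
  split_ifs <;> assumption

theorem nouniv (c : ℤ → (ca P).S) : ¬ (ca P).Universal (range (io P)) (io P) c := by
  rintro ⟨-, h⟩
  have h1 (m : ℕ) : ∃ (k : ℕ) (τ : ℤ), τ + k < 0 ∧ (∀ v, τ ≤ v → v ≤ τ + k → c v = (ca P).ν) ∧
      (∀ v ≥ 0, c v = (ca P).ν) ∧
      Out ((ca P).un ((ca P).un c ((ca P).tr (io P k) τ)) (io P 0)) m := by
    obtain ⟨_, ⟨k, rfl⟩, τ, h1, -, -, _, -, _, -, h2⟩ := h (fun _ => Part.some m)
      (Nat.Partrec.of_primrec (Nat.Primrec.const m))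
    have h3 (v : ℤ) (l : v ≥ 0) : (ca P).un c ((ca P).tr (io P k) τ) v = (ca P).ν :=
      not_not.1 (disjoint_right.1 (h2 v.toNat m (by simp)).1 ((io_supp _ v).2 ⟨l, by omega⟩))
    have h4 (v : ℤ) (l1 : τ ≤ v) (l2 : v ≤ τ + k) : v ∈ (ca P).Supp ((ca P).tr (io P k) τ) :=
      (io_supp k (v - τ)).2 (by omega)
    have h5 v l1 l2 : c v = (ca P).ν := not_not.1 (disjoint_left.1 h1 (h4 v l1 l2))
    refine ⟨k, τ, by_contra fun l => h4 (τ + k) (by omega) le_rfl ?_, h5, fun v l => ?_, ?_⟩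
    · have := h3 (τ + k) (by omega)
      rwa [CA.un, if_pos (h5 _ (by omega) le_rfl)] at this
    · have := h3 v l
      rw [CA.un] at this
      split_ifs at this <;> assumption
    obtain ⟨-, t, -, -, h6, h7⟩ := h2 0 m (by simp)
    refine ⟨t, fun s l v l1 l2 => by_contra fun n => h6 ⟨s - t, v, ?_⟩⟩
    rw [CA.un_res, h7, Geq, iterate_fixed (G_pas _ _ (io_pas m)), ← iterate_add_apply,
      Nat.sub_add_cancel l]
    exact ⟨(io_supp ..).2 ⟨l1, l2⟩, n⟩
  by_cases hc : ∀ v, pas (c v)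
  · obtain ⟨k, τ, h2, -, h3, t, h4⟩ := h1 1
    have := h4 t le_rfl 0 le_rfl (by simp)
    rw [iterate_fixed (G_pas _ ((ca P).un ((ca P).un c ((ca P).tr (io P k) τ)) (io P 0)) fun v =>
      un_pas (un_pas (hc v) (io_pas ..)) (io_pas ..))] at this
    simp [CA.un, h3, CA.tr, io, inp, show ¬ (-τ).toNat < k by omega, show (-τ).toNat ≠ k by omega] at this
  obtain ⟨y, hy⟩ := not_forall.1 hc
  let X := insert ((ca P).un c (io P 0)) ((fun p : ℕ × ℤ =>
    (ca P).un ((ca P).un c ((ca P).tr (io P p.1) p.2)) (io P 0)) '' Iio y.natAbs ×ˢ Ioo y 0)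
  have h2 (m : ℕ) : ∃ x ∈ X, Out x m := by
    obtain ⟨k, τ, h2, h3, h4, h5⟩ := h1 m
    have n (v) (e : c v = (ca P).ν) : pas (c v) := e ▸ ⟨rfl, rfl⟩
    by_cases l : y < τ
    · exact ⟨_, .inr ⟨(k, τ), by simp; omega, rfl⟩, h5⟩
    have l' : τ + k < y := by_contra fun g => hy (n y (h3 y (by omega) (by omega)))
    obtain ⟨z, ⟨z1, z2⟩, z3⟩ := Int.exists_least_of_bdd (P := fun v => τ + k < v ∧ ¬ pas (c v))
      ⟨τ + k, fun _ h => h.1.le⟩ ⟨y, l', hy⟩
    have z0 : z < 0 := by_contra fun g => z2 (n z (h4 z (by omega)))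
    have z4 : pas (c (z - 1)) := by_contra fun g => by
      by_cases e : z - 1 = τ + k
      · exact g (n _ (h3 _ (by omega) e.le))
      · have := z3 _ ⟨by omega, g⟩
        omega
    obtain ⟨t, h5⟩ := h5
    refine ⟨_, .inl rfl, t, fun s l v l1 l2 => (wall dl (y := z) (fun v l => ?_) ?_ ?_ ?_ s v
      (by omega)).trans (h5 s l v l1 l2)⟩
    · have : (ca P).tr (io P k) τ v = (ca P).ν :=
        not_not.1 (mt (io_supp k (v - τ)).1 (by omega))
      simp only [CA.un, this]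
      split_ifs <;> simp_all
    · rwa [CA.un, if_neg fun e => z2 (n z e)]
    · exact un_pas z4 (io_pas ..)
    · exact un_pas (un_pas z4 (io_pas ..)) (io_pas ..)
  choose x h3 h4 using h2
  exact infinite_of_injective_forall_mem (f := x) (fun a b e => (h4 a).uniq (e ▸ h4 b)) h3
    ((((finite_Iio _).prod (finite_Ioo _ _)).image _).insert _)

theorem result : ∃ (A : CA) (T : Set (ℤ → A.S)) (ι : ℕ → ℤ → A.S), A.Domain T ι ∧
    (∀ ψ : ℕ →. ℕ, Nat.Partrec ψ → ∃ c, (A.Supp c).Finite ∧ A.Computes T ι c ψ) ∧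
    ¬ ∃ c, A.Universal T ι c := by
  obtain ⟨P, hP⟩ := H.MP_8a6a08_lc.univ
  refine ⟨ca P, _, _, dom, fun ψ h => ?_, fun ⟨c, h⟩ => nouniv c h⟩
  obtain ⟨e, rfl⟩ := Nat.Partrec.Code.exists_code.1 h
  obtain ⟨e, rfl⟩ := (Denumerable.eqv _).symm.surjective e
  obtain ⟨p, hp⟩ : ∃ p, p = e + 2 := ⟨_, rfl⟩
  let c : ℤ → (ca P).S := C p (tp P p 0 p (s0 p p)) 0 (some (mk P [P], .R))
  have h1 (v : ℤ) (l : v < -p - 1 ∨ 0 ≤ v) : c v = (ca P).ν := by
    simp only [c, C, tp, inp]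
    split_ifs <;> first | omega | rfl | contradiction
  refine ⟨c, (finite_Icc (-p - 1 : ℤ) 0).subset fun v h => by_contra fun l => h (h1 v (by
    simp at l; omega)), fun ⟨n, h⟩ => ?_, -1, ?_, (.Hl, none), by simp, fun n m h => ⟨?_, ?_⟩⟩
  · have := congrFun h (-p - 1)
    simp only [c, C, io] at this
    split_ifs at this <;> first | omega | simp at this
  · simp [CA.Supp, c, C, tp, show (1 : ℤ) ≤ p by omega, show 0 < p by omega]
  · exact disjoint_right.2 fun v l g => g (h1 v (.inr ((io_supp ..).1 l).1))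
  obtain ⟨s, h2, h3⟩ := hP e n m h
  rw [← hp] at h2 h3
  have h4 : (ca P).un c (io P n) = Cf P p (p + n + 1) p (s0 p (p + n + 1)) 0 (mk P [P]) .R := by
    funext v
    by_cases l : 0 ≤ v
    · rw [CA.un, if_pos (h1 v (.inr l))]
      simp only [io, C, tp, inp]
      split_ifs <;> first | omega | rfl
    · have : (ca P).un c (io P n) v = c v := by
        rw [CA.un]
        split_ifs with g
        · rw [g, io, if_neg l]
        · rfl
      simp only [this, c, C, tp, inp]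
      split_ifs <;> first | omega | rfl | skip
      all_goals
        congr 2
        funext j
        simp only [s0, update_apply]
        split_ifs <;> simp <;> omega
  obtain ⟨z, h5, h6⟩ := finish (p := p) (N := p + n + 1) (by omega) (sim (by omega) h2 [] (fun x l => List.mem_cons_of_mem _ l)
    ⟨p, by omega, ⟨le_rfl, fun j _ i l => by
      simp only [s0, update_apply]; split_ifs <;> omega⟩, .refl⟩)
  obtain ⟨t, h7, h8⟩ := reach _ h6
  rw [h4, Geq]
  refine ⟨t, ?_, fun s l g => h8 s l (-1) (congrArg Prod.fst g), ?_⟩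
  · simp [h7, C, show (1 : ℤ) ≤ p by omega, show (-1 + p : ℤ).toNat = p - 1 by omega]
  have h9 (v : ℤ) (l : 0 ≤ v) : (G dl)^[t] (Cf P p (p + n + 1) p (s0 p (p + n + 1)) 0 (mk P [P]) .R)
      v = io P m v := by
    simp only [h7, C, update_apply, fin, h3, io, inp]
    split_ifs <;> first | omega | rfl
  have h10 : (ca P).res ((G dl)^[t] (Cf P p (p + n + 1) p (s0 p (p + n + 1)) 0 (mk P [P]) .R))
      ((ca P).U (range (io P))) = io P m := by
    funext v
    rw [CA.res, Ueq]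
    split_ifs with l
    · exact h9 v l
    · rw [io, if_neg (show ¬ 0 ≤ v from l)]
  refine ⟨fun ⟨r, v, l, g⟩ => g ?_, h10⟩
  rw [CA.un_res, h10, Geq, iterate_fixed (G_pas _ _ (io_pas m))] at *
  rw [← h9 v ((io_supp ..).1 l).1, h7, iterate_fixed (G_fix _ _ ⟨fun j => ?_, fun j => ?_⟩)]
  all_goals
    simp only [update_apply, fin, tp, inp]
    split_ifs <;> first | omega | simp [Sym.pas]

end Pool.Agent.Results.MP_8a6a08_lc.Counter
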